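import Pool.Agent.H96.AL.Targets2

open Topology Set Filter Real

namespace Pool.Agent.H81.AL

open Pool.Agent.H96.AL

theorem fo : T_FO := by
  intro X _ _ E hE hne z
  have key : ∀ p, Foot E z p → dist z p = Metric.infDist z E := by
    intro p hp
    refine le_antisymm ?_ (Metric.infDist_le_dist_of_mem hp.1)
    exact (Metric.le_infDist hne).2 (fun e => hp.2 e)
  refine ⟨?_, key, ?_⟩
  · obtain ⟨p, hp, hmin⟩ := hE.isCompact.exists_isMinOn hne
      (f := fun x => dist z x) (by fun_prop)
    exact ⟨p, hp, fun e he => hmin he⟩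
  · exact (hE.mem_iff_infDist_zero hne).symm

end Pool.Agent.H81.AL
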