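import Pool.Agent.H96.AL.Targets2

open Topology Set Filter Real

namespace Pool.Agent.H81.AL

open Pool.Agent.H96.AL

theorem pd (hLP : T_LP) (hDS : T_DS) (hDA : T_DA) : T_PD := by
  intro X _ D hX f Λ hΛ hf m E hE μ ε hμ z y
  have h0 := hDS X Λ f hf z y
  have hi : ∀ i : Fin m, DGe (fun x => μ i * lp (E i) (ε i) x) z y (μ i * (-(1 + D))) := by
    intro i
    have h1 := (hLP X D hX (E i) (hE i).1 (hE i).2 (ε i) (hμ i).2.1 (hμ i).2.2).2.2.2 z y
    exact (hDA X _ _ z y _ _ (μ i) (hμ i).1 h1 h1).2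
  have hs : ∀ s : Finset (Fin m), DGe (fun x => f x + ∑ i ∈ s, μ i * lp (E i) (ε i) x) z y
      (f y - f z - Λ / 2 * dist z y ^ 2 + ∑ i ∈ s, μ i * (-(1 + D))) := by
    intro s
    induction s using Finset.induction_on with
    | empty => simpa using h0
    | insert a s ha ih =>
      have h2 := (hDA X _ _ z y _ _ 0 le_rfl ih (hi a)).1
      have e1 : (fun x => f x + ∑ i ∈ s, μ i * lp (E i) (ε i) x + μ a * lp (E a) (ε a) x) =
          (fun x => f x + ∑ i ∈ insert a s, μ i * lp (E i) (ε i) x) := by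
        funext x
        rw [Finset.sum_insert ha]; ring
      have e2 : f y - f z - Λ / 2 * dist z y ^ 2 + ∑ i ∈ s, μ i * (-(1 + D)) + μ a * (-(1 + D)) =
          f y - f z - Λ / 2 * dist z y ^ 2 + ∑ i ∈ insert a s, μ i * (-(1 + D)) := by
        rw [Finset.sum_insert ha]; ring
      rw [e1, e2] at h2
      exact h2
  have h3 := hs Finset.univ
  have e3 : f y - f z - Λ / 2 * dist z y ^ 2 + ∑ i, μ i * (-(1 + D)) =
      f y - f z - Λ / 2 * dist z y ^ 2 - (1 + D) * ∑ i, μ i := by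
    rw [← Finset.sum_mul]; ring
  rw [e3] at h3
  exact h3

end Pool.Agent.H81.AL
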